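import Pool.Agent.R280.FBL

/-!
# The norm of `FBL[ℓ_2(2)]` is not octahedral (MP_8a6196_an, Q1: no)

Let `E` be the Euclidean plane with the unit vectors `a`, `b` and
`z_1 = (|δ_a| - 10 |δ_b|)^+`, `z_2 = (|δ_b| - 10 |δ_a|)^+`. If `‖y‖ = 1` and `‖z_1 + y‖` is almost `2`, then
a family with `sup_x ∑ |x_i*(x)| ≤ 1` which almost attains this norm almost attains the norm of `z_1`,
and so it consists of functionals almost proportional to `a`, up to a small part. Hence `|y|` is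
large at some functional `v_1` close to `± a`, and similarly at some `v_2` close to `± b`. The family
`{v_1, v_2} / 1.6` then shows `‖y‖ > 1`.
-/

set_option autoImplicit false

open Set Topology Filter Pool.Agent.R280.BLat

universe u

namespace Pool.Agent.Results.MP_8a6196_an.EuclideanPlane

/-- The norm of `X` is octahedral: for every finite-dimensional subspace `Y` of `X` and every `ε > 0`
there is `y` with `‖y‖ = 1` and `‖z + l y‖ ≥ (1 - ε) (‖z‖ + |l|)` for all `z ∈ Y`, `l ∈ ℝ`. -/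
def IsOctahedral (X : Type u) [NormedAddCommGroup X] [NormedSpace ℝ X] : Prop :=
  ∀ Y : Submodule ℝ X, FiniteDimensional ℝ Y → ∀ ε : ℝ, 0 < ε →
    ∃ y : X, ‖y‖ = 1 ∧ ∀ z ∈ Y, ∀ l : ℝ, (1 - ε) * (‖z‖ + |l|) ≤ ‖z + l • y‖

/-- the Euclidean plane -/
abbrev E : Type := EuclideanSpace ℝ (Fin 2)

lemma abs_le_of_norm {y : (FBL E).Space} (hy : ‖y‖ ≤ 1) (u : E →L[ℝ] ℝ) {r : ℝ} (hr : 0 ≤ r)
    (h : ∀ x : E, ‖x‖ ≤ 1 → |u x| ≤ r) : |y.fn u| ≤ r := by
  classical
  refine le_of_forall_gt_imp_ge_of_dense fun t ht => ?_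
  have ht0 : 0 < t := lt_of_le_of_lt hr ht
  have hw : Finsupp.single u (1 / t) ∈ fblW E := by
    refine single_mem (by positivity) fun x hx => ?_
    rw [one_div, inv_mul_le_iff₀ ht0, mul_one]
    exact (h x hx).trans ht.le
  have h1 : pr (Finsupp.single u (1 / t)) y.fn ≤ ‖y‖ := FLat.pr_le y hw
  rw [pr, Finsupp.sum_single_index (by rw [zero_mul]), one_div, inv_mul_le_iff₀ ht0] at h1
  nlinarith

lemma side (a b : E) (h1 : ∀ c s : ℝ, c ^ 2 + s ^ 2 ≤ 1 → ‖c • a + s • b‖ ≤ 1)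
    (h2 : ∀ (u : E →L[ℝ] ℝ) (x : E), ‖x‖ ≤ 1 → |u x| ≤ |u a| + |u b|)
    (h3 : ∃ u : E →L[ℝ] ℝ, u a = 1 ∧ u b = 0 ∧ ∀ x : E, ‖x‖ ≤ 1 → |u x| ≤ 1)
    {y z : (FBL E).Space} (hy : ‖y‖ = 1) (hz : ∀ u, z.fn u = (|u a| - 10 * |u b|) ⊔ 0)
    (hoct : (1 - 1 / 1000 : ℝ) * (‖z‖ + 1) ≤ ‖z + y‖) :
    ∃ u : E →L[ℝ] ℝ, 10 * |u b| ≤ |u a| ∧ 0 < |u a| ∧ 43 / 50 * |u a| ≤ |y.fn u| := by
  classical
  -- the norm of `z`
  have hz1 : 1 ≤ ‖z‖ := by
    obtain ⟨u, hua, hub, hu⟩ := h3
    have hw : Finsupp.single u (1 : ℝ) ∈ fblW E :=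
      single_mem zero_le_one fun x hx => by rw [one_mul]; exact hu x hx
    have h4 : pr (Finsupp.single u (1 : ℝ)) z.fn ≤ ‖z‖ := FLat.pr_le z hw
    rw [pr, Finsupp.sum_single_index (by rw [zero_mul]), hz, hua, hub] at h4
    norm_num at h4
    exact h4
  have hz2 : ‖z‖ ≤ 1 := by
    refine FLat.norm_le_of z zero_le_one fun w hw => ?_
    have hw' : w ∈ fblW E := hw
    refine (pr_mono hw'.1 fun u => ?_).trans (hw'.2 a (by simpa using h1 1 0 (by norm_num)))
    rw [hz, abs_of_nonneg (le_sup_right : (0 : ℝ) ≤ _ ⊔ 0)]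
    refine sup_le ?_ (abs_nonneg _)
    have := abs_nonneg (u b)
    linarith
  obtain ⟨w, hw, hwzy⟩ : ∃ w ∈ fblW E, 1997 / 1000 < pr w (z + y).fn := by
    by_contra hcon
    push Not at hcon
    have h4 : ‖z + y‖ ≤ 1997 / 1000 := FLat.norm_le_of _ (by norm_num) hcon
    nlinarith
  have hwz : pr w z.fn ≤ ‖z‖ := FLat.pr_le z hw
  have hwy : pr w y.fn ≤ ‖y‖ := FLat.pr_le y hw
  have hadd : pr w (z + y).fn ≤ pr w z.fn + pr w y.fn := pr_add_le hw.1 z.fn y.fn
  -- splitting of the sums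
  set C : Finset (E →L[ℝ] ℝ) := w.support.filter fun u => 10 * |u b| ≤ |u a| with hC
  set D : Finset (E →L[ℝ] ℝ) := w.support.filter fun u => ¬ 10 * |u b| ≤ |u a| with hD
  have hsplit : ∀ f : (E →L[ℝ] ℝ) → ℝ, pr w f = ∑ u ∈ C, w u * |f u| + ∑ u ∈ D, w u * |f u| :=
    fun f => (Finset.sum_filter_add_sum_filter_not _ _ _).symm
  set A := ∑ u ∈ C, w u * |u a| with hA
  set B := ∑ u ∈ C, w u * |u b| with hB
  set A' := ∑ u ∈ D, w u * |u a| with hA'
  set B' := ∑ u ∈ D, w u * |u b| with hB'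
  have hA0 : 0 ≤ A := Finset.sum_nonneg fun u _ => mul_nonneg (hw.1 u) (abs_nonneg _)
  have hB0 : 0 ≤ B := Finset.sum_nonneg fun u _ => mul_nonneg (hw.1 u) (abs_nonneg _)
  have hA0' : 0 ≤ A' := Finset.sum_nonneg fun u _ => mul_nonneg (hw.1 u) (abs_nonneg _)
  have hB0' : 0 ≤ B' := Finset.sum_nonneg fun u _ => mul_nonneg (hw.1 u) (abs_nonneg _)
  have e1 : pr w z.fn = A - 10 * B := by
    rw [hsplit]
    have h4 : ∑ u ∈ D, w u * |z.fn u| = 0 := by
      refine Finset.sum_eq_zero fun u hu => ?_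
      have := (Finset.mem_filter.1 hu).2
      rw [hz, sup_eq_right.2 (by linarith), abs_zero, mul_zero]
    have h5 : ∑ u ∈ C, w u * |z.fn u| = ∑ u ∈ C, (w u * |u a| - 10 * (w u * |u b|)) := by
      refine Finset.sum_congr rfl fun u hu => ?_
      have := (Finset.mem_filter.1 hu).2
      rw [hz, sup_eq_left.2 (by linarith), abs_of_nonneg (by linarith)]
      ring
    rw [h4, h5, Finset.sum_sub_distrib, ← Finset.mul_sum, add_zero]
  have e2 : A + A' ≤ 1 := by
    have h4 := hw.2 a (by simpa using h1 1 0 (by norm_num))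
    rwa [hsplit] at h4
  have e3 : 99 / 101 * (A - A') + 20 / 101 * (B' - B) ≤ 1 := by
    have h4 := hw.2 ((99 / 101 : ℝ) • a + (20 / 101 : ℝ) • b) (h1 _ _ (by norm_num))
    rw [hsplit] at h4
    have h5 : 99 / 101 * A - 20 / 101 * B ≤
        ∑ u ∈ C, w u * |u ((99 / 101 : ℝ) • a + (20 / 101 : ℝ) • b)| := by
      rw [hA, hB, Finset.mul_sum, Finset.mul_sum, ← Finset.sum_sub_distrib]
      refine Finset.sum_le_sum fun u _ => ?_
      rw [map_add, map_smul, map_smul, smul_eq_mul, smul_eq_mul]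
      have h6 := abs_sub_abs_le_abs_sub (99 / 101 * u a) (-(20 / 101 * u b))
      rw [abs_neg, sub_neg_eq_add, abs_mul, abs_mul, abs_of_pos (by norm_num : (0 : ℝ) < 99 / 101),
        abs_of_pos (by norm_num : (0 : ℝ) < 20 / 101)] at h6
      have h7 := mul_le_mul_of_nonneg_left h6 (hw.1 u)
      linarith
    have h6 : 20 / 101 * B' - 99 / 101 * A' ≤
        ∑ u ∈ D, w u * |u ((99 / 101 : ℝ) • a + (20 / 101 : ℝ) • b)| := by
      rw [hA', hB', Finset.mul_sum, Finset.mul_sum, ← Finset.sum_sub_distrib]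
      refine Finset.sum_le_sum fun u _ => ?_
      rw [map_add, map_smul, map_smul, smul_eq_mul, smul_eq_mul]
      have h6 := abs_sub_abs_le_abs_sub (20 / 101 * u b) (-(99 / 101 * u a))
      rw [abs_neg, sub_neg_eq_add, abs_mul, abs_mul, abs_of_pos (by norm_num : (0 : ℝ) < 99 / 101),
        abs_of_pos (by norm_num : (0 : ℝ) < 20 / 101), add_comm (20 / 101 * u b)] at h6
      have h7 := mul_le_mul_of_nonneg_left h6 (hw.1 u)
      linarith
    linarith
  by_contra hcon
  push Not at hcon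
  have hyle : ∀ u : E →L[ℝ] ℝ, |y.fn u| ≤ |u a| + |u b| := fun u =>
    abs_le_of_norm hy.le u (by positivity) (h2 u)
  have e4 : pr w y.fn ≤ 43 / 50 * A + (A' + B') := by
    rw [hsplit]
    refine add_le_add ?_ ?_
    · rw [hA, Finset.mul_sum]
      refine Finset.sum_le_sum fun u hu => ?_
      have h4 := (Finset.mem_filter.1 hu).2
      have h5 : |y.fn u| ≤ 43 / 50 * |u a| := by
        rcases (abs_nonneg (u a)).eq_or_lt with h0 | h0
        · have h6 := hyle u
          have h7 := abs_nonneg (u b)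
          rw [← h0] at h4 h6 ⊢
          linarith
        · exact (hcon u h4 h0).le
      have := mul_le_mul_of_nonneg_left h5 (hw.1 u)
      linarith
    · rw [hA', hB', ← Finset.sum_add_distrib]
      refine Finset.sum_le_sum fun u _ => ?_
      rw [← mul_add]
      exact mul_le_mul_of_nonneg_left (hyle u) (hw.1 u)
  linarith

/-- the unit vectors -/
noncomputable def e (i : Fin 2) : E := EuclideanSpace.single i 1

lemma eq_comb (x : E) : x = x 0 • e 0 + x 1 • e 1 := by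
  ext i
  fin_cases i <;> simp [e]

lemma norm_sq (x : E) : ‖x‖ ^ 2 = x 0 ^ 2 + x 1 ^ 2 := by
  rw [EuclideanSpace.norm_sq_eq, Fin.sum_univ_two, Real.norm_eq_abs, Real.norm_eq_abs, sq_abs,
    sq_abs]

lemma norm_comb_le (c s : ℝ) (h : c ^ 2 + s ^ 2 ≤ 1) : ‖c • e 0 + s • e 1‖ ≤ 1 := by
  have h1 := norm_sq (c • e 0 + s • e 1)
  have h2 : (c • e 0 + s • e 1) 0 = c := by simp [e]
  have h3 : (c • e 0 + s • e 1) 1 = s := by simp [e]
  rw [h2, h3] at h1
  exact (sq_le_one_iff₀ (norm_nonneg _)).1 (by rw [h1]; exact h)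

lemma coord_sq_le {x : E} (hx : ‖x‖ ≤ 1) : x 0 ^ 2 + x 1 ^ 2 ≤ 1 := by
  rw [← norm_sq]
  exact (sq_le_one_iff₀ (norm_nonneg _)).2 hx

lemma coord_le {x : E} (hx : ‖x‖ ≤ 1) (i : Fin 2) : |x i| ≤ 1 := by
  have h := coord_sq_le hx
  rw [← sq_le_one_iff_abs_le_one]
  have h0 := sq_nonneg (x 0)
  have h1 := sq_nonneg (x 1)
  fin_cases i
  · show x 0 ^ 2 ≤ 1
    linarith
  · show x 1 ^ 2 ≤ 1
    linarith

lemma abs_apply_le (u : E →L[ℝ] ℝ) (x : E) : |u x| ≤ |x 0| * |u (e 0)| + |x 1| * |u (e 1)| := by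
  have h1 : u x = x 0 * u (e 0) + x 1 * u (e 1) := by
    conv_lhs => rw [eq_comb x]
    rw [map_add, map_smul, map_smul, smul_eq_mul, smul_eq_mul]
  rw [h1]
  refine (abs_add_le _ _).trans ?_
  rw [abs_mul, abs_mul]

/-- the test functions -/
noncomputable def zf (a b : E) : (E →L[ℝ] ℝ) → ℝ := fun u => (|u a| - 10 * |u b|) ⊔ 0

lemma isGen_zf (a b : E) : IsGen E (zf a b) := by
  have h1 := IsGen.sup _ _ ((IsGen.delta (E := E) a).abs.sub
    (IsGen.smul 10 _ (IsGen.delta (E := E) b).abs)) IsGen.zero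
  exact h1

/-- The norm of the free Banach lattice `FBL[E]` over the Euclidean plane `E` is not octahedral. -/
theorem result : ¬ IsOctahedral (FBL (EuclideanSpace ℝ (Fin 2))).Space := by
  classical
  intro hoct
  set z1 : (FBL E).Space := FLat.of (zf (e 0) (e 1)) (mem_of_isGen (isGen_zf _ _)) with hz1
  set z2 : (FBL E).Space := FLat.of (zf (e 1) (e 0)) (mem_of_isGen (isGen_zf _ _)) with hz2
  obtain ⟨y, hy, hyz⟩ := hoct (Submodule.span ℝ {z1, z2})
    (FiniteDimensional.span_of_finite ℝ (by simp)) (1 / 1000) (by norm_num)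
  have h1 := hyz z1 (Submodule.subset_span (by simp)) 1
  have h2 := hyz z2 (Submodule.subset_span (by simp)) 1
  rw [one_smul, abs_one] at h1 h2
  obtain ⟨u, hu1, hu2, hu3⟩ := side (e 0) (e 1) norm_comb_le (fun u x hx => by
      refine (abs_apply_le u x).trans ?_
      have h3 := mul_le_mul_of_nonneg_right (coord_le hx 0) (abs_nonneg (u (e 0)))
      have h4 := mul_le_mul_of_nonneg_right (coord_le hx 1) (abs_nonneg (u (e 1)))
      linarith)
    ⟨EuclideanSpace.proj 0, by simp [e], by simp [e], fun x hx => coord_le hx 0⟩ hy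
    (z := z1) (fun u => rfl) h1
  obtain ⟨v, hv1, hv2, hv3⟩ := side (e 1) (e 0) (fun c s h => by
      rw [add_comm]
      exact norm_comb_le s c (by linarith)) (fun u x hx => by
      refine (abs_apply_le u x).trans ?_
      have h3 := mul_le_mul_of_nonneg_right (coord_le hx 0) (abs_nonneg (u (e 0)))
      have h4 := mul_le_mul_of_nonneg_right (coord_le hx 1) (abs_nonneg (u (e 1)))
      linarith)
    ⟨EuclideanSpace.proj 1, by simp [e], by simp [e], fun x hx => coord_le hx 1⟩ hy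
    (z := z2) (fun u => rfl) h2
  -- the family
  set c : ℝ := 5 / (8 * |u (e 0)|) with hc
  set d : ℝ := 5 / (8 * |v (e 1)|) with hd
  have hc0 : 0 < c := by positivity
  have hd0 : 0 < d := by positivity
  have hpr : ∀ f : (E →L[ℝ] ℝ) → ℝ, pr (Finsupp.single u c + Finsupp.single v d) f =
      c * |f u| + d * |f v| := by
    intro f
    unfold pr
    rw [Finsupp.sum_add_index' (fun i => zero_mul _) (fun i a b => add_mul _ _ _),
      Finsupp.sum_single_index (zero_mul _), Finsupp.sum_single_index (zero_mul _)]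
  have hw : Finsupp.single u c + Finsupp.single v d ∈ fblW E := by
    refine ⟨fun i => ?_, fun x hx => ?_⟩
    · rw [Finsupp.add_apply, Finsupp.single_apply, Finsupp.single_apply]
      split_ifs <;> positivity
    · rw [hpr]
      have h3 := abs_apply_le u x
      have h4 := abs_apply_le v x
      have h5 := coord_sq_le hx
      have h6 : |x 0| + |x 1| ≤ 71 / 50 := by
        have h7 := sq_nonneg (|x 0| - |x 1|)
        have h8 : |x 0| ^ 2 + |x 1| ^ 2 ≤ 1 := by rw [sq_abs, sq_abs]; exact h5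
        have h9 : 0 ≤ |x 0| + |x 1| := by positivity
        by_contra hcon
        push Not at hcon
        nlinarith
      have h7 : |u x| ≤ |u (e 0)| * (|x 0| + |x 1| / 10) := by
        have := mul_le_mul_of_nonneg_left hu1 (abs_nonneg (x 1))
        nlinarith
      have h8 : |v x| ≤ |v (e 1)| * (|x 1| + |x 0| / 10) := by
        have := mul_le_mul_of_nonneg_left hv1 (abs_nonneg (x 0))
        nlinarith
      have h9 : c * |u x| ≤ 5 / 8 * (|x 0| + |x 1| / 10) := by
        calc c * |u x| ≤ c * (|u (e 0)| * (|x 0| + |x 1| / 10)) :=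
              mul_le_mul_of_nonneg_left h7 hc0.le
          _ = 5 / 8 * (|x 0| + |x 1| / 10) := by rw [hc]; field_simp
      have h10 : d * |v x| ≤ 5 / 8 * (|x 1| + |x 0| / 10) := by
        calc d * |v x| ≤ d * (|v (e 1)| * (|x 1| + |x 0| / 10)) :=
              mul_le_mul_of_nonneg_left h8 hd0.le
          _ = 5 / 8 * (|x 1| + |x 0| / 10) := by rw [hd]; field_simp
      linarith
  have h3 : pr (Finsupp.single u c + Finsupp.single v d) y.fn ≤ ‖y‖ := FLat.pr_le y hw
  rw [hpr, hy] at h3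
  have h4 : c * (43 / 50 * |u (e 0)|) = 43 / 80 := by rw [hc]; field_simp; norm_num
  have h5 : d * (43 / 50 * |v (e 1)|) = 43 / 80 := by rw [hd]; field_simp; norm_num
  have h6 := mul_le_mul_of_nonneg_left hu3 hc0.le
  have h7 := mul_le_mul_of_nonneg_left hv3 hd0.le
  linarith

end Pool.Agent.Results.MP_8a6196_an.EuclideanPlane
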